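import Mathlib

/-!
Sums of few 3-smooth numbers: the representation predicate and the 2-adic step.
-/

namespace Pool.Agent.Q264.DB

/-- `t` is 3-smooth: `t = 2^i * 3^j`. -/
def IsSmooth (t : ℕ) : Prop := ∃ i j : ℕ, t = 2 ^ i * 3 ^ j

/-- `m` is a sum of at most `n` 3-smooth numbers, repetitions allowed. -/
def Rep (n m : ℕ) : Prop :=
  ∃ s : Multiset ℕ, s.card ≤ n ∧ (∀ t ∈ s, IsSmooth t) ∧ s.sum = m

/-- `h n` is the least positive integer which is not a sum of at most `n` 3-smooth numbers. -/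
noncomputable def h (n : ℕ) : ℕ := sInf {m : ℕ | 0 < m ∧ ¬ Rep n m}

lemma rep_zero (n : ℕ) : Rep n 0 := ⟨0, by simp, by simp, by simp⟩

lemma Rep.mono {n n' m : ℕ} (hr : Rep n m) (hn : n ≤ n') : Rep n' m := by
  obtain ⟨s, h1, h2, h3⟩ := hr
  exact ⟨s, h1.trans hn, h2, h3⟩

lemma Rep.add {n m t : ℕ} (hr : Rep n m) (ht : IsSmooth t) : Rep (n + 1) (m + t) := by
  obtain ⟨s, h1, h2, h3⟩ := hr
  refine ⟨t ::ₘ s, by simpa using h1, ?_, by simp [h3, add_comm]⟩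
  intro u hu
  rcases Multiset.mem_cons.mp hu with rfl | hu
  · exact ht
  · exact h2 u hu

lemma Rep.scale {n m : ℕ} (a : ℕ) (hr : Rep n m) : Rep n (2 ^ a * m) := by
  obtain ⟨s, h1, h2, h3⟩ := hr
  refine ⟨s.map (fun t => 2 ^ a * t), by simpa using h1, ?_, ?_⟩
  · intro u hu
    obtain ⟨t, ht, rfl⟩ := Multiset.mem_map.mp hu
    obtain ⟨i, j, rfl⟩ := h2 t ht
    exact ⟨a + i, j, by ring⟩
  · rw [Multiset.sum_map_mul_left, Multiset.map_id', h3]

lemma rep_self (m : ℕ) : Rep m m := by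
  induction m with
  | zero => exact rep_zero 0
  | succ m ih => exact ih.add ⟨0, 0, by norm_num⟩

/-- `3^(2^(k+1)) = 1 + 2^(k+3) u` with `u` odd. -/
lemma three_pow (k : ℕ) : ∃ u : ℕ, u % 2 = 1 ∧ 3 ^ (2 ^ (k + 1)) = 1 + 2 ^ (k + 3) * u := by
  induction k with
  | zero => exact ⟨1, by norm_num, by norm_num⟩
  | succ k ih =>
    obtain ⟨u, hu, e⟩ := ih
    refine ⟨u + 2 ^ (k + 2) * u ^ 2, ?_, ?_⟩
    · have : 2 ^ (k + 2) * u ^ 2 = 2 * (2 ^ (k + 1) * u ^ 2) := by ring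
      omega
    · have : 3 ^ (2 ^ (k + 1 + 1)) = (3 ^ (2 ^ (k + 1))) ^ 2 := by
        rw [← pow_mul]; congr 1
      rw [this, e]; ring

/-- Every residue which is `1` or `3` mod `8` is a power of `3` mod `2^(k+3)`. -/
lemma dlog (k y : ℕ) (hy : y % 8 = 1 ∨ y % 8 = 3) :
    ∃ j : ℕ, j < 2 ^ (k + 1) ∧ 3 ^ j ≡ y [MOD 2 ^ (k + 3)] := by
  induction k with
  | zero =>
    rcases hy with hy | hy
    · exact ⟨0, by norm_num, by simp [Nat.ModEq, hy]⟩
    · exact ⟨1, by norm_num, by simp [Nat.ModEq, hy]⟩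
  | succ k ih =>
    obtain ⟨j, hj, hm⟩ := ih
    by_cases hc : 3 ^ j ≡ y [MOD 2 ^ (k + 1 + 3)]
    · exact ⟨j, by rw [pow_succ]; omega, hc⟩
    · obtain ⟨u, hu, e⟩ := three_pow k
      refine ⟨j + 2 ^ (k + 1), by rw [pow_succ 2 (k + 1)]; omega, ?_⟩
      rw [pow_add 3 j (2 ^ (k + 1)), e]
      have h1 : (3 ^ j) % 2 = 1 := by
        rw [Nat.pow_mod]; simp
      -- work in integers
      have hm' := (Nat.modEq_iff_dvd.mp hm)
      obtain ⟨q, hq⟩ := hm'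
      have hqodd : q % 2 = 1 := by
        rcases Int.emod_two_eq_zero_or_one q with h0 | h0
        · exfalso
          apply hc
          apply Nat.modEq_iff_dvd.mpr
          refine ⟨q / 2, ?_⟩
          rw [hq]
          have : q = 2 * (q / 2) := by omega
          push_cast
          rw [this]
          have e2 : (2 * (q / 2)) / 2 = q / 2 := by omega
          rw [e2]; ring
        · exact h0
      apply Nat.modEq_iff_dvd.mpr
      obtain ⟨w, hw⟩ : ∃ w : ℕ, 3 ^ j * u = 2 * w + 1 := by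
        refine ⟨(3 ^ j * u) / 2, ?_⟩
        have : (3 ^ j * u) % 2 = 1 := by rw [Nat.mul_mod, h1, hu]
        omega
      refine ⟨(q - 1) / 2 - w, ?_⟩
      have hq2 : q = 2 * ((q - 1) / 2) + 1 := by omega
      have hw' : ((3 : ℤ) ^ j * u) = 2 * w + 1 := by exact_mod_cast hw
      push_cast at hq ⊢
      have : (y : ℤ) - 3 ^ j * (1 + 2 ^ (k + 3) * u) = 2 ^ (k + 3) * (q - 3 ^ j * u) := by
        linear_combination hq
      rw [this, hw']
      generalize (q - 1) / 2 = r at hq2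
      rw [hq2]; ring

/-- The 2-adic step. -/
lemma step (a x : ℕ) (ha : 3 ≤ a) (hx : x % 8 = 1 ∨ x % 8 = 3) (hb : 3 ^ (2 ^ (a + 1)) ≤ x) :
    ∃ j x' : ℕ, x = 3 ^ j + 2 ^ a * x' ∧ x' % 8 = 1 := by
  obtain ⟨j, hj, hm⟩ := dlog a (x + 7 * 2 ^ a) (by
    obtain ⟨b, rfl⟩ := Nat.exists_eq_add_of_le ha
    have : 7 * 2 ^ (3 + b) = 8 * (7 * 2 ^ b) := by ring
    omega)
  have hlt : 3 ^ j < x := lt_of_lt_of_le (Nat.pow_lt_pow_right (by norm_num) hj) hb
  obtain ⟨q, hq⟩ := Nat.modEq_iff_dvd.mp hm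
  have hq' : (x : ℤ) - 3 ^ j = 2 ^ a * (8 * q - 7) := by
    push_cast at hq
    linear_combination hq
  have hpos : (0 : ℤ) < (x : ℤ) - 3 ^ j := by
    have : ((3 ^ j : ℕ) : ℤ) < x := by exact_mod_cast hlt
    push_cast at this
    linarith
  have hq1 : 0 < 8 * q - 7 := by
    rw [hq'] at hpos
    exact pos_of_mul_pos_right hpos (by positivity)
  obtain ⟨r, hr⟩ : ∃ r : ℕ, q = r + 1 := ⟨(q - 1).toNat, by omega⟩
  refine ⟨j, 8 * r + 1, ?_, by omega⟩
  have : (x : ℤ) = 3 ^ j + 2 ^ a * (8 * r + 1) := by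
    rw [hr] at hq'
    linear_combination hq'
  exact_mod_cast this

end Pool.Agent.Q264.DB
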