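import Pool.Agent.Q264.DB.Base

/-!
Every `x < 2^N` is a sum of at most `N / (log₂ N - 7) + O(1)` 3-smooth numbers.
-/

namespace Pool.Agent.Q264.DB

/-- All `x < 2^N` with `x % 8 = 1` are sums of at most `k` 3-smooth numbers. -/
def R (N k : ℕ) : Prop := ∀ x : ℕ, x < 2 ^ N → x % 8 = 1 → Rep k x

lemma R.anti {N N' k : ℕ} (hR : R N' k) (hN : N ≤ N') : R N k := by
  intro x hx h8
  exact hR x (lt_of_lt_of_le hx (Nat.pow_le_pow_right (by norm_num) hN)) h8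

lemma R.step {N k a : ℕ} (hR : R N k) (ha : 3 ≤ a) (hN : 2 ^ (a + 2) ≤ N) :
    R (N + a) (k + 1) := by
  intro x hx h8
  by_cases hlt : x < 2 ^ N
  · exact (hR x hlt h8).mono (by omega)
  · push Not at hlt
    have hb : 3 ^ (2 ^ (a + 1)) ≤ x := by
      calc 3 ^ (2 ^ (a + 1)) ≤ 4 ^ (2 ^ (a + 1)) := Nat.pow_le_pow_left (by norm_num) _
        _ = 2 ^ (2 ^ (a + 2)) := by
          rw [show (4 : ℕ) = 2 ^ 2 by norm_num, ← pow_mul, pow_succ 2 (a + 1), mul_comm]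
        _ ≤ 2 ^ N := Nat.pow_le_pow_right (by norm_num) hN
        _ ≤ x := hlt
    obtain ⟨j, x', e, h'⟩ := DB.step a x ha (Or.inl h8) hb
    have hx' : x' < 2 ^ N := by
      have h1 : 2 ^ a * x' < 2 ^ a * 2 ^ N := by
        rw [← pow_add, add_comm a N]
        exact lt_of_le_of_lt (by rw [e]; exact Nat.le_add_left _ _) hx
      exact lt_of_mul_lt_mul_left h1 (Nat.zero_le _)
    have hr := ((hR x' hx' h').scale a).add ⟨0, j, by rw [pow_zero, one_mul]⟩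
    rw [e, add_comm (3 ^ j)]
    exact hr

lemma R.iter {N k a : ℕ} (hR : R N k) (ha : 3 ≤ a) (hN : 2 ^ (a + 2) ≤ N) (t : ℕ) :
    R (N + t * a) (k + t) := by
  induction t with
  | zero => simpa using hR
  | succ t ih =>
    have := ih.step ha (hN.trans (Nat.le_add_right _ _))
    have e : N + (t + 1) * a = N + t * a + a := by ring
    rw [e]
    exact this

lemma R.ceil {N k a : ℕ} (hR : R N k) (ha : 3 ≤ a) (hN : 2 ^ (a + 2) ≤ N) (r : ℕ) :
    R (N + r) (k + (r / a + 1)) := by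
  refine (hR.iter ha hN (r / a + 1)).anti ?_
  have h1 := Nat.div_add_mod r a
  have h2 := Nat.mod_lt r (show 0 < a by omega)
  have h3 : (r / a + 1) * a = a * (r / a) + a := by ring
  omega

lemma R.all {N k : ℕ} (hR : R N k) (x : ℕ) (hx : x < 2 ^ N) : Rep (k + 1) x := by
  rcases Nat.eq_zero_or_pos x with rfl | hpos
  · exact rep_zero _
  obtain ⟨s, y, hy, e⟩ := Nat.exists_eq_two_pow_mul_odd hpos.ne'
  have hy2 : y < 2 ^ N := by
    refine lt_of_le_of_lt ?_ hx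
    rw [e]; exact Nat.le_mul_of_pos_left _ (by positivity)
  rw [e]
  refine Rep.scale s ?_
  have hodd : y % 2 = 1 := Nat.odd_iff.mp hy
  have h8 : y % 8 = 1 ∨ y % 8 = 3 ∨ y % 8 = 5 ∨ y % 8 = 7 := by omega
  rcases h8 with h8 | h8 | h8 | h8
  · exact (hR y hy2 h8).mono (by omega)
  · have := (hR (y - 2) (by omega) (by omega)).add (t := 2) ⟨1, 0, by norm_num⟩
    rwa [show y - 2 + 2 = y by omega] at this
  · have := (hR (y - 4) (by omega) (by omega)).add (t := 4) ⟨2, 0, by norm_num⟩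
    rwa [show y - 4 + 4 = y by omega] at this
  · have := (hR (y - 6) (by omega) (by omega)).add (t := 6) ⟨1, 1, by norm_num⟩
    rwa [show y - 6 + 6 = y by omega] at this

lemma sq_le_two_pow (p : ℕ) : (p + 8) ^ 2 ≤ 2 ^ (p + 10) := by
  induction p with
  | zero => norm_num
  | succ p ih =>
    have e : 2 ^ (p + 1 + 10) = 2 * 2 ^ (p + 10) := by ring
    rw [e]; nlinarith [Nat.zero_le (p * p)]

lemma key_ineq (p : ℕ) : (2 : ℝ) ^ (p + 10) / (p + 4) + (2 : ℝ) ^ (p + 10) / (p + 8) + 1 ≤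
    (2 : ℝ) ^ (p + 11) / (p + 5) := by
  have hE : ((p : ℝ) + 8) ^ 2 ≤ 2 ^ (p + 10) := by exact_mod_cast sq_le_two_pow p
  have e : (2 : ℝ) ^ (p + 11) = 2 * 2 ^ (p + 10) := by ring
  rw [e]
  generalize (2 : ℝ) ^ (p + 10) = E at hE
  have hp : (0 : ℝ) ≤ p := Nat.cast_nonneg p
  generalize (p : ℝ) = q at hE hp
  have h4 : (0 : ℝ) < q + 4 := by linarith
  have h5 : (0 : ℝ) < q + 5 := by linarith
  have h8 : (0 : ℝ) < q + 8 := by linarith
  rw [← sub_nonneg]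
  have : 2 * E / (q + 5) - (E / (q + 4) + E / (q + 8) + 1) =
      (E * (2 * q + 4) - (q + 4) * (q + 5) * (q + 8)) / ((q + 4) * (q + 5) * (q + 8)) := by
    field_simp
    ring
  rw [this]
  apply div_nonneg _ (by positivity)
  nlinarith [mul_nonneg hp hp, mul_nonneg (mul_nonneg hp hp) hp]

/-- Bound at powers of two. -/
lemma pow_bound : ∃ K : ℝ, 0 ≤ K ∧ ∀ p : ℕ, ∃ k : ℕ, R (2 ^ (p + 10)) k ∧
    (k : ℝ) ≤ 2 ^ (p + 10) / (p + 4) + K := by
  obtain ⟨B, hB⟩ : ∃ B : ℕ, ∀ x : ℕ, x < 2 ^ (2 ^ (0 + 10)) → x ≤ B := ⟨_, fun x hx => hx.le⟩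
  refine ⟨(B : ℕ), Nat.cast_nonneg _, ?_⟩
  intro p
  induction p with
  | zero =>
    refine ⟨B, ?_, ?_⟩
    · intro x hx _
      exact (rep_self x).mono (hB x hx)
    · exact le_add_of_nonneg_left (by positivity)
  | succ p ih =>
    obtain ⟨k, hR, hk⟩ := ih
    have h1 := hR.ceil (a := p + 8) (by omega) (by rw [show p + 8 + 2 = p + 10 by ring])
      (2 ^ (p + 10))
    refine ⟨k + (2 ^ (p + 10) / (p + 8) + 1), ?_, ?_⟩
    · have e : 2 ^ (p + 1 + 10) = 2 ^ (p + 10) + 2 ^ (p + 10) := by ring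
      rw [e]; exact h1
    · have h2 : ((2 ^ (p + 10) / (p + 8) : ℕ) : ℝ) ≤ 2 ^ (p + 10) / (p + 8) := by
        have := @Nat.cast_div_le ℝ _ _ _ (2 ^ (p + 10)) (p + 8)
        push_cast at this ⊢
        exact this
      have h3 := key_ineq p
      have e : (2 : ℝ) ^ (p + 1 + 10) / (((p + 1 : ℕ) : ℝ) + 4) = (2 : ℝ) ^ (p + 11) / (p + 5) := by
        push_cast
        congr 1
        · ring
      rw [e]
      push_cast at h2 ⊢
      linarith

/-- The general bound. -/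
lemma gen_bound : ∃ K : ℝ, 0 ≤ K ∧ ∀ N : ℕ, 2 ^ 10 ≤ N → ∃ k : ℕ, (∀ x < 2 ^ N, Rep k x) ∧
    (k : ℝ) ≤ N / (Nat.log 2 N - 6) + K := by
  obtain ⟨K, hK, hb⟩ := pow_bound
  refine ⟨K + 2, by linarith, ?_⟩
  intro N hN
  obtain ⟨p, hp⟩ : ∃ p : ℕ, Nat.log 2 N = p + 10 := by
    have : 10 ≤ Nat.log 2 N := by
      apply (Nat.le_log_iff_pow_le (by norm_num) (by omega)).mpr hN
    exact ⟨Nat.log 2 N - 10, by omega⟩
  have hle : 2 ^ (p + 10) ≤ N := by
    rw [← hp]; exact Nat.pow_log_le_self 2 (by omega)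
  obtain ⟨r, rfl⟩ := Nat.exists_eq_add_of_le hle
  obtain ⟨k, hR, hk⟩ := hb p
  have h1 := hR.ceil (a := p + 8) (by omega) (by rw [show p + 8 + 2 = p + 10 by ring]) r
  refine ⟨_, h1.all, ?_⟩
  have h2 : ((r / (p + 8) : ℕ) : ℝ) ≤ r / (p + 8) := by
    have := @Nat.cast_div_le ℝ _ _ _ r (p + 8)
    push_cast at this ⊢
    exact this
  have h3 : (r : ℝ) / (p + 8) ≤ r / (p + 4) := by
    apply div_le_div_of_nonneg_left (Nat.cast_nonneg _) (by positivity) (by linarith)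
  rw [hp]
  have e : ((p + 10 : ℕ) : ℝ) - 6 = p + 4 := by push_cast; ring
  rw [e]
  push_cast
  rw [add_div]
  linarith

end Pool.Agent.Q264.DB
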