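import Pool.Agent.Q264.DB.Base

/-!
The counting bound: if every `x < 2^N` is a sum of at most `n` 3-smooth numbers then
`2^N ≤ (N^2+n)^n / n!`.
-/

namespace Pool.Agent.Q264.DB

/-- The value of a code. -/
def val (N : ℕ) : Option (Fin N × Fin N) → ℕ
  | none => 0
  | some p => 2 ^ (p.1 : ℕ) * 3 ^ (p.2 : ℕ)

lemma exists_code {N t : ℕ} (ht : IsSmooth t) (hlt : t < 2 ^ N) :
    ∃ c : Option (Fin N × Fin N), val N c = t := by
  obtain ⟨i, j, rfl⟩ := ht
  have hi : i < N := by
    by_contra hc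
    push Not at hc
    have h1 : 2 ^ N ≤ 2 ^ i := Nat.pow_le_pow_right (by norm_num) hc
    have h2 : 2 ^ i ≤ 2 ^ i * 3 ^ j := Nat.le_mul_of_pos_right _ (by positivity)
    omega
  have hj : j < N := by
    by_contra hc
    push Not at hc
    have h1 : 2 ^ N ≤ 2 ^ j := Nat.pow_le_pow_right (by norm_num) hc
    have h3 : 2 ^ j ≤ 3 ^ j := Nat.pow_le_pow_left (by norm_num) j
    have h2 : 3 ^ j ≤ 2 ^ i * 3 ^ j := Nat.le_mul_of_pos_left _ (by positivity)
    omega
  exact ⟨some (⟨i, hi⟩, ⟨j, hj⟩), rfl⟩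

lemma exists_sym {N n x : ℕ} (hx : x < 2 ^ N) (hr : Rep n x) :
    ∃ σ : Sym (Option (Fin N × Fin N)) n, ((σ : Multiset (Option (Fin N × Fin N))).map (val N)).sum
      = x := by
  classical
  obtain ⟨s, h1, h2, h3⟩ := hr
  have hc : ∀ t ∈ s, ∃ c : Option (Fin N × Fin N), val N c = t := by
    intro t ht
    apply exists_code (h2 t ht)
    refine lt_of_le_of_lt ?_ hx
    rw [← h3]
    exact Multiset.single_le_sum (fun _ _ => Nat.zero_le _) t ht
  let f : ℕ → Option (Fin N × Fin N) := fun t =>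
    if h : ∃ c : Option (Fin N × Fin N), val N c = t then h.choose else none
  have hf : ∀ t ∈ s, val N (f t) = t := by
    intro t ht
    have h := hc t ht
    simp only [f, dif_pos h]
    exact h.choose_spec
  refine ⟨⟨s.map f + Multiset.replicate (n - s.card) none, ?_⟩, ?_⟩
  · simp; omega
  · change (Multiset.map (val N) (s.map f + Multiset.replicate (n - s.card) none)).sum = x
    rw [Multiset.map_add, Multiset.map_map, Multiset.sum_add, Multiset.map_replicate]
    have e : Multiset.map (val N ∘ f) s = s := by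
      conv_rhs => rw [← Multiset.map_id' s]
      exact Multiset.map_congr rfl (fun t ht => hf t ht)
    rw [e, h3]
    simp [val]

lemma count {N n : ℕ} (hall : ∀ x < 2 ^ N, Rep n x) :
    2 ^ N ≤ (N ^ 2 + n).choose n := by
  classical
  have h1 : Finset.range (2 ^ N) ⊆ (Finset.univ : Finset (Sym (Option (Fin N × Fin N)) n)).image
      (fun σ : Sym (Option (Fin N × Fin N)) n =>
        ((σ : Multiset (Option (Fin N × Fin N))).map (val N)).sum) := by
    intro x hx
    rw [Finset.mem_range] at hx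
    obtain ⟨σ, hσ⟩ := exists_sym hx (hall x hx)
    exact Finset.mem_image.mpr ⟨σ, Finset.mem_univ _, hσ⟩
  have h2 := (Finset.card_le_card h1).trans Finset.card_image_le
  rw [Finset.card_range, Finset.card_univ, Sym.card_sym_eq_multichoose, Nat.multichoose_eq] at h2
  simp only [Fintype.card_option, Fintype.card_prod, Fintype.card_fin] at h2
  have e : N * N + 1 + n - 1 = N ^ 2 + n := by
    rw [sq]; omega
  rwa [e] at h2

lemma count_real {N n : ℕ} (hn : 0 < n) (hall : ∀ x < 2 ^ N, Rep n x) :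
    (N : ℝ) * Real.log 2 ≤ n * (Real.log (((N : ℝ) ^ 2 + n) / n) + 1) := by
  have h1 : ((2 : ℝ) ^ N) ≤ ((N : ℝ) ^ 2 + n) ^ n / (n.factorial : ℝ) := by
    have h2 : ((2 ^ N : ℕ) : ℝ) ≤ ((N ^ 2 + n).choose n : ℝ) := by exact_mod_cast count hall
    have h3 := Nat.choose_le_pow_div (α := ℝ) n (N ^ 2 + n)
    push_cast at h2 h3
    exact h2.trans h3
  have hn' : (0 : ℝ) < n := by exact_mod_cast hn
  have h4 : ((N : ℝ) ^ 2 + n) ^ n / (n.factorial : ℝ) ≤
      (((N : ℝ) ^ 2 + n) / n) ^ n * Real.exp n := by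
    have h5 := Real.pow_div_factorial_le_exp (n : ℝ) hn'.le n
    have e : ((N : ℝ) ^ 2 + n) ^ n / (n.factorial : ℝ) =
        (((N : ℝ) ^ 2 + n) / n) ^ n * ((n : ℝ) ^ n / (n.factorial : ℝ)) := by
      rw [div_pow]
      field_simp
    rw [e]
    exact mul_le_mul_of_nonneg_left h5 (by positivity)
  have h6 := Real.log_le_log (by positivity) (h1.trans h4)
  rw [Real.log_pow, Real.log_mul (by positivity) (by positivity), Real.log_pow, Real.log_exp] at h6
  linarith

end Pool.Agent.Q264.DB
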