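import Pool.Agent.Q264.DB.Lower
import Pool.Agent.Q264.DB.Upper

/-!
Asymptotics of `log₂ h n`.
-/

namespace Pool.Agent.Q264.DB

open Filter Real Topology

/-- `log₂ n`. -/
noncomputable def l1 (n : ℕ) : ℝ := logb 2 (n : ℝ)

/-- `log₂ log₂ n`. -/
noncomputable def l2 (n : ℕ) : ℝ := logb 2 (logb 2 (n : ℝ))

lemma logb_two_small (c : ℝ) (hc : 0 < c) : ∀ᶠ x : ℝ in atTop, logb 2 x ≤ c * x := by
  have h1 := Real.isLittleO_log_id_atTop.def (c := c * Real.log 2)
    (mul_pos hc (Real.log_pos (by norm_num)))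
  filter_upwards [h1, eventually_ge_atTop (1 : ℝ)] with x hx hx1
  rw [norm_of_nonneg (Real.log_nonneg hx1), id, norm_of_nonneg (by linarith)] at hx
  rw [logb, div_le_iff₀ (Real.log_pos (by norm_num))]
  linarith

lemma l1_tendsto : Tendsto l1 atTop atTop := by
  have h := (Real.tendsto_logb_atTop (b := 2) (by norm_num)).comp tendsto_natCast_atTop_atTop
  exact h

lemma l2_tendsto : Tendsto l2 atTop atTop :=
  (Real.tendsto_logb_atTop (b := 2) (by norm_num)).comp l1_tendsto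

lemma l2_small : ∀ᶠ n : ℕ in atTop, l2 n ≤ (1 / 4) * l1 n :=
  l1_tendsto.eventually (logb_two_small (1 / 4) (by norm_num))

lemma l1_small (c : ℝ) (hc : 0 < c) : ∀ᶠ n : ℕ in atTop, l1 n ≤ c * n :=
  tendsto_natCast_atTop_atTop.eventually (logb_two_small c hc)

/-- The counting argument in the range needed. -/
lemma upper_ev : ∀ᶠ n : ℕ in atTop, ∃ N : ℕ, (N : ℝ) ≤ n * (l1 n + 2 * l2 n + 7) ∧
    ¬ (∀ x < 2 ^ N, Rep n x) := by
  filter_upwards [eventually_ge_atTop 1, l1_tendsto.eventually_ge_atTop 14, l2_small,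
    l2_tendsto.eventually_ge_atTop 0] with n hn h14 hs h2
  have hn' : (1 : ℝ) ≤ n := by exact_mod_cast hn
  have hn0 : (0 : ℝ) < n := by linarith
  have hpos : 0 ≤ (n : ℝ) * (l1 n + 2 * l2 n + 6) := by positivity
  refine ⟨⌈(n : ℝ) * (l1 n + 2 * l2 n + 6)⌉₊, ?_, ?_⟩
  · have := (Nat.ceil_lt_add_one hpos).le
    nlinarith
  · intro hall
    set N := ⌈(n : ℝ) * (l1 n + 2 * l2 n + 6)⌉₊ with hN
    have hN1 : (n : ℝ) * (l1 n + 2 * l2 n + 6) ≤ N := Nat.le_ceil _
    have hN2 : (N : ℝ) ≤ n * (2 * l1 n) := by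
      have h3 := (Nat.ceil_lt_add_one hpos).le
      have h4 : (n : ℝ) * (l1 n + 2 * l2 n + 6) + 1 ≤ n * (2 * l1 n) := by nlinarith
      linarith
    have hNn : (n : ℝ) ≤ N := by nlinarith
    have hN0 : (0 : ℝ) < N := by linarith
    have hc := count_real hn hall
    have hl2 : 0 < Real.log 2 := Real.log_pos (by norm_num)
    have hl2' : (1 : ℝ) / 2 ≤ Real.log 2 := by
      have := Real.log_two_gt_d9; linarith
    -- bound the logarithm
    have hA : ((N : ℝ) ^ 2 + n) / n ≤ 8 * n * l1 n ^ 2 := by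
      rw [div_le_iff₀ hn0]
      have h5 : (N : ℝ) ^ 2 ≤ (n * (2 * l1 n)) ^ 2 := by
        apply pow_le_pow_left₀ hN0.le hN2
      have h6 : (n : ℝ) ≤ 4 * n * n * l1 n ^ 2 := by
        have : (1 : ℝ) ≤ l1 n ^ 2 := by nlinarith
        nlinarith [mul_nonneg hn0.le hn0.le]
      nlinarith
    have hl1pos : (0 : ℝ) < l1 n := by linarith
    have hB : Real.log (((N : ℝ) ^ 2 + n) / n) ≤ (3 + l1 n + 2 * l2 n) * Real.log 2 := by
      refine (Real.log_le_log (by positivity) hA).trans (le_of_eq ?_)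
      rw [Real.log_mul (by positivity) (by positivity), Real.log_mul (by positivity) (by positivity),
        Real.log_pow, show (8 : ℝ) = 2 ^ 3 by norm_num, Real.log_pow]
      have e1 : l1 n * Real.log 2 = Real.log n := by
        rw [l1, logb]; field_simp
      have e2 : l2 n * Real.log 2 = Real.log (l1 n) := by
        rw [l2, logb, l1]; field_simp
      push_cast
      rw [← e1, ← e2]; ring
    have hC : (N : ℝ) * Real.log 2 ≤ n * ((5 + l1 n + 2 * l2 n) * Real.log 2) := by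
      refine hc.trans (mul_le_mul_of_nonneg_left ?_ hn0.le)
      linarith
    have hD : (N : ℝ) ≤ n * (5 + l1 n + 2 * l2 n) := by
      have : (N : ℝ) * Real.log 2 ≤ (n * (5 + l1 n + 2 * l2 n)) * Real.log 2 := by linarith
      exact le_of_mul_le_mul_right this hl2
    nlinarith

lemma exists_not_rep {n N : ℕ} (hN : ¬ (∀ x < 2 ^ N, Rep n x)) :
    ∃ x : ℕ, x < 2 ^ N ∧ 0 < x ∧ ¬ Rep n x := by
  push Not at hN
  obtain ⟨x, hx, hr⟩ := hN
  refine ⟨x, hx, ?_, hr⟩
  rcases Nat.eq_zero_or_pos x with rfl | h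
  · exact absurd (rep_zero n) hr
  · exact h

lemma nonempty_set (n : ℕ) : {m : ℕ | 0 < m ∧ ¬ Rep n m}.Nonempty := by
  obtain ⟨n', hn', N, -, hN⟩ := ((eventually_ge_atTop n).and upper_ev).exists
  obtain ⟨x, -, h0, hr⟩ := exists_not_rep hN
  exact ⟨x, h0, fun hc => hr (hc.mono hn')⟩

lemma h_isLeast (n : ℕ) : IsLeast {m : ℕ | 0 < m ∧ ¬ Rep n m} (h n) :=
  ⟨Nat.sInf_mem (nonempty_set n), fun _ hm => Nat.sInf_le hm⟩

lemma h_pos (n : ℕ) : 0 < h n := (h_isLeast n).1.1

lemma upper_final : ∀ᶠ n : ℕ in atTop, logb 2 (h n : ℝ) ≤ n * (l1 n + 2 * l2 n + 7) := by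
  filter_upwards [upper_ev] with n hn
  obtain ⟨N, hN, hr⟩ := hn
  obtain ⟨x, hx, h0, hr⟩ := exists_not_rep hr
  have h1 : h n ≤ x := (h_isLeast n).2 ⟨h0, hr⟩
  have h2 : (h n : ℝ) ≤ 2 ^ N := by exact_mod_cast h1.trans hx.le
  refine le_trans ?_ hN
  rw [logb, div_le_iff₀ (Real.log_pos (by norm_num)), ← Real.log_pow]
  exact Real.log_le_log (by exact_mod_cast h_pos n) h2

lemma lower_ev : ∀ᶠ n : ℕ in atTop, ∃ N : ℕ, (n : ℝ) * (l1 n + l2 n - 10) ≤ N ∧
    (∀ x < 2 ^ N, Rep n x) := by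
  obtain ⟨K, hK, hb⟩ := gen_bound
  filter_upwards [eventually_ge_atTop 1024, l1_tendsto.eventually_ge_atTop 20, l2_small,
    l2_tendsto.eventually_ge_atTop 0, l1_small (1 / (2 * (K + 1))) (by positivity)]
    with n hn h20 hs h2 hsm
  have hn' : (1024 : ℝ) ≤ n := by exact_mod_cast hn
  have hn0 : (0 : ℝ) < n := by linarith
  have hpos : 0 ≤ (n : ℝ) * (l1 n + l2 n - 9) := mul_nonneg hn0.le (by linarith)
  set N := ⌊(n : ℝ) * (l1 n + l2 n - 9)⌋₊ with hN
  have hN1 : (N : ℝ) ≤ n * (l1 n + l2 n - 9) := Nat.floor_le hpos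
  have hN2 : (n : ℝ) * (l1 n + l2 n - 9) < N + 1 := Nat.lt_floor_add_one _
  have hN3 : (n : ℝ) * (l1 n / 2) ≤ N := by nlinarith
  have hN4 : 2 ^ 10 ≤ N := by
    have : (1024 : ℝ) ≤ N := by nlinarith
    have : (1024 : ℕ) ≤ N := by exact_mod_cast this
    omega
  refine ⟨N, by nlinarith, ?_⟩
  obtain ⟨k, hk, hkb⟩ := hb N hN4
  have hkn : k ≤ n := by
    have hl2 : 0 < Real.log 2 := Real.log_pos (by norm_num)
    have hl1pos : (0 : ℝ) < l1 n := by linarith
    -- lower bound of `Nat.log 2 N`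
    have hm : l1 n + l2 n - 2 ≤ (Nat.log 2 N : ℝ) := by
      have h3 : N < 2 ^ (Nat.log 2 N + 1) := Nat.lt_pow_succ_log_self (by norm_num) N
      have h4 : (n : ℝ) * (l1 n / 2) ≤ 2 ^ (Nat.log 2 N + 1) := by
        refine hN3.trans ?_
        exact_mod_cast h3.le
      have h5 := Real.log_le_log (by positivity) h4
      rw [Real.log_pow, Real.log_mul (by positivity) (by positivity),
        Real.log_div (by positivity) (by norm_num)] at h5
      have e1 : l1 n * Real.log 2 = Real.log n := by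
        rw [l1, logb]; field_simp
      have e2 : l2 n * Real.log 2 = Real.log (l1 n) := by
        rw [l2, logb, l1]; field_simp
      rw [← e1, ← e2] at h5
      push_cast at h5
      have h6 : (l1 n + l2 n - 1) * Real.log 2 ≤ ((Nat.log 2 N : ℝ) + 1) * Real.log 2 := by
        linarith
      have := le_of_mul_le_mul_right h6 hl2
      linarith
    have hd : 0 < l1 n + l2 n - 8 := by linarith
    have h7 : (N : ℝ) / (Nat.log 2 N - 6) ≤ n * (l1 n + l2 n - 9) / (l1 n + l2 n - 8) := by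
      apply div_le_div₀ hpos hN1 hd
      linarith
    have h8 : (n : ℝ) * (l1 n + l2 n - 9) / (l1 n + l2 n - 8) + K ≤ n := by
      rw [div_add' _ _ _ hd.ne', div_le_iff₀ hd]
      have h9 : (K + 1) * (l1 n + l2 n - 8) ≤ n := by
        have h10 : l1 n + l2 n - 8 ≤ 2 * l1 n := by linarith
        have h11 : (K + 1) * (2 * l1 n) ≤ n := by
          rw [one_div, inv_mul_eq_div, le_div_iff₀ (by positivity)] at hsm
          linarith
        nlinarith
      nlinarith
    have : (k : ℝ) ≤ n := by linarith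
    exact_mod_cast this
  exact fun x hx => (hk x hx).mono hkn

lemma lower_final : ∀ᶠ n : ℕ in atTop, n * (l1 n + l2 n - 10) ≤ logb 2 (h n : ℝ) := by
  filter_upwards [lower_ev] with n hn
  obtain ⟨N, hN, hr⟩ := hn
  have h1 : 2 ^ N ≤ h n := by
    by_contra hc
    push Not at hc
    exact (h_isLeast n).1.2 (hr _ hc)
  have h2 : (2 : ℝ) ^ N ≤ h n := by exact_mod_cast h1
  refine hN.trans ?_
  rw [logb, le_div_iff₀ (Real.log_pos (by norm_num)), ← Real.log_pow]
  exact Real.log_le_log (by positivity) h2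

lemma two_sided : ∃ n₀ : ℕ, ∀ n : ℕ, n₀ ≤ n →
    n * (logb 2 n + logb 2 (logb 2 n) - 10) ≤ logb 2 (h n : ℝ) ∧
    logb 2 (h n : ℝ) ≤ n * (logb 2 n + 2 * logb 2 (logb 2 n) + 7) := by
  obtain ⟨n₀, h0⟩ := eventually_atTop.mp (lower_final.and upper_final)
  exact ⟨n₀, fun n hn => h0 n hn⟩

lemma l2_div_l1 : Tendsto (fun n => l2 n / l1 n) atTop (𝓝 0) := by
  have h1 : Tendsto (fun x : ℝ => Real.log x / x) atTop (𝓝 0) := by
    have := Real.isLittleO_log_id_atTop.tendsto_div_nhds_zero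
    simpa using this
  have h2 : Tendsto (fun x : ℝ => logb 2 x / x) atTop (𝓝 0) := by
    have h3 := h1.const_mul (1 / Real.log 2)
    rw [mul_zero] at h3
    refine h3.congr (fun x => ?_)
    rw [logb]; ring
  exact h2.comp l1_tendsto

lemma main_tendsto : Tendsto (fun n : ℕ => Real.log (h n : ℝ) / (n * Real.log n)) atTop (𝓝 1) := by
  have hinv : Tendsto (fun n => (l1 n)⁻¹) atTop (𝓝 0) := tendsto_inv_atTop_zero.comp l1_tendsto
  have hlow : Tendsto (fun n => 1 + l2 n / l1 n - 10 * (l1 n)⁻¹) atTop (𝓝 1) := by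
    have := (l2_div_l1.const_add 1).sub (hinv.const_mul 10)
    simpa using this
  have hup : Tendsto (fun n => 1 + 2 * (l2 n / l1 n) + 7 * (l1 n)⁻¹) atTop (𝓝 1) := by
    have := ((l2_div_l1.const_mul 2).const_add 1).add (hinv.const_mul 7)
    simpa using this
  have hl2 : 0 < Real.log 2 := Real.log_pos (by norm_num)
  have key : ∀ᶠ n : ℕ in atTop, Real.log (h n : ℝ) / (n * Real.log n) =
      logb 2 (h n : ℝ) / (n * l1 n) := by
    filter_upwards with n
    rw [logb, l1, logb]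
    field_simp
  refine tendsto_of_tendsto_of_tendsto_of_le_of_le' hlow hup ?_ ?_
  · filter_upwards [key, lower_final, l1_tendsto.eventually_gt_atTop 0, eventually_ge_atTop 1]
      with n hk hl h1 hn
    have hn' : (0 : ℝ) < n := by exact_mod_cast hn
    rw [hk, le_div_iff₀ (by positivity)]
    refine le_trans (le_of_eq ?_) hl
    field_simp
  · filter_upwards [key, upper_final, l1_tendsto.eventually_gt_atTop 0, eventually_ge_atTop 1]
      with n hk hl h1 hn
    have hn' : (0 : ℝ) < n := by exact_mod_cast hn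
    rw [hk, div_le_iff₀ (by positivity)]
    refine hl.trans (le_of_eq ?_)
    field_simp

end Pool.Agent.Q264.DB
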